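import Pool.Agent.Helper45.CF.GoalsA

/-!
Project CF (MP_d97caa_an, captain helper45), packet TOE: the Toeplitz data.
-/

open scoped ComplexOrder ZeroAtInfty Topology ComplexConjugate
open TopologicalSpace Filter

namespace Pool.Agent.Helper30.CF

open Pool.Agent.Helper34.CAR Pool.Agent.Helper39.CR
open Pool.Agent.Helper45.CF

noncomputable section

section lift

variable {A G P : Type} [CStarAlgebra G] [CStarAlgebra P]

/-- Lift of a unital *-homomorphism with values in the range of an injective one. -/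
def liftU [CStarAlgebra A] (g : G →⋆ₐ[ℂ] P) (hg : Function.Injective g) (φ : A →⋆ₐ[ℂ] P)
    (h : ∀ a, φ a ∈ Set.range g) : A →⋆ₐ[ℂ] G where
  toFun a := (h a).choose
  map_one' := hg (by rw [(h 1).choose_spec, map_one, map_one])
  map_mul' a b := hg (by
    rw [(h (a * b)).choose_spec, map_mul, map_mul, (h a).choose_spec, (h b).choose_spec])
  map_zero' := hg (by rw [(h 0).choose_spec, map_zero, map_zero])
  map_add' a b := hg (by
    rw [(h (a + b)).choose_spec, map_add, map_add, (h a).choose_spec, (h b).choose_spec])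
  commutes' c := hg (by
    rw [(h _).choose_spec, AlgHomClass.commutes, AlgHomClass.commutes])
  map_star' a := hg (by
    rw [(h (star a)).choose_spec, map_star, map_star, (h a).choose_spec])

theorem g_liftU [CStarAlgebra A] (g : G →⋆ₐ[ℂ] P) (hg : Function.Injective g) (φ : A →⋆ₐ[ℂ] P)
    (h : ∀ a, φ a ∈ Set.range g) (a : A) : g (liftU g hg φ h a) = φ a := (h a).choose_spec

/-- Lift of a *-homomorphism with values in the range of an injective one. -/
def liftN [NonUnitalCStarAlgebra A] (g : G →⋆ₐ[ℂ] P) (hg : Function.Injective g)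
    (φ : A →⋆ₙₐ[ℂ] P) (h : ∀ a, φ a ∈ Set.range g) : A →⋆ₙₐ[ℂ] G where
  toFun a := (h a).choose
  map_mul' a b := hg (by
    rw [(h (a * b)).choose_spec, map_mul, map_mul, (h a).choose_spec, (h b).choose_spec])
  map_zero' := hg (by rw [(h 0).choose_spec, map_zero, map_zero])
  map_add' a b := hg (by
    rw [(h (a + b)).choose_spec, map_add, map_add, (h a).choose_spec, (h b).choose_spec])
  map_smul' c a := hg (by
    rw [(h (c • a)).choose_spec, map_smul, MonoidHom.id_apply, map_smul, (h a).choose_spec])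
  map_star' a := hg (by
    rw [(h (star a)).choose_spec, map_star, map_star, (h a).choose_spec])

theorem g_liftN [NonUnitalCStarAlgebra A] (g : G →⋆ₐ[ℂ] P) (hg : Function.Injective g)
    (φ : A →⋆ₙₐ[ℂ] P) (h : ∀ a, φ a ∈ Set.range g) (a : A) : g (liftN g hg φ h a) = φ a :=
  (h a).choose_spec

end lift

section maps

variable {W M : Type} [CStarAlgebra W] [CStarAlgebra M]

/-- constants -/
def cW (Z W : Type) [TopologicalSpace Z] [CompactSpace Z] [CStarAlgebra W] :
    W →⋆ₐ[ℂ] C(Z, W) where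
  toFun w := ContinuousMap.const Z w
  map_one' := rfl
  map_mul' _ _ := rfl
  map_zero' := rfl
  map_add' _ _ := rfl
  commutes' _ := rfl
  map_star' _ := rfl

theorem cW_apply (Z : Type) [TopologicalSpace Z] [CompactSpace Z] (w : W) :
    cW Z W w = ContinuousMap.const Z w := rfl

/-- `w ↦ (ρ w, const (const w))` -/
def rP (ρ : W →⋆ₐ[ℂ] M) : W →⋆ₐ[ℂ] M × C(unitInterval, C(Circle, W)) where
  toFun w := (ρ w, ContinuousMap.const _ (ContinuousMap.const _ w))
  map_one' := Prod.ext (map_one ρ) rfl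
  map_mul' a b := Prod.ext (map_mul ρ a b) rfl
  map_zero' := Prod.ext (map_zero ρ) rfl
  map_add' a b := Prod.ext (map_add ρ a b) rfl
  commutes' c := Prod.ext (AlgHomClass.commutes ρ c) rfl
  map_star' a := Prod.ext (map_star ρ a) rfl

/-- the south pole -/
def south : Sphere2 := pol (1, 1)

/-- `f ↦ (ρ (f S), (t, z) ↦ f (pol (t, z)))` -/
def PhP (ρ : W →⋆ₐ[ℂ] M) : C(Sphere2, W) →⋆ₐ[ℂ] M × C(unitInterval, C(Circle, W)) where
  toFun f := (ρ (f south), (f.comp pol).curry)
  map_one' := Prod.ext (map_one ρ) rfl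
  map_mul' _ _ := Prod.ext (map_mul ρ _ _) rfl
  map_zero' := Prod.ext (map_zero ρ) rfl
  map_add' _ _ := Prod.ext (map_add ρ _ _) rfl
  commutes' c := Prod.ext (AlgHomClass.commutes ρ c) rfl
  map_star' _ := Prod.ext (map_star ρ _) rfl

theorem pol_one (z : Circle) : pol (1, z) = south := by
  apply Subtype.ext
  refine Prod.ext rfl ?_
  change ((Real.sin (Real.pi * ((1 : unitInterval) : ℝ)) : ℝ) : ℂ) * (z : ℂ) =
    ((Real.sin (Real.pi * ((1 : unitInterval) : ℝ)) : ℝ) : ℂ) * ((1 : Circle) : ℂ)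
  rw [Set.Icc.coe_one, mul_one, Real.sin_pi]
  simp

theorem pol_zero (z : Circle) : pol (0, z) = pol (0, 1) := by
  apply Subtype.ext
  refine Prod.ext rfl ?_
  change ((Real.sin (Real.pi * ((0 : unitInterval) : ℝ)) : ℝ) : ℂ) * (z : ℂ) =
    ((Real.sin (Real.pi * ((0 : unitInterval) : ℝ)) : ℝ) : ℂ) * ((1 : Circle) : ℂ)
  rw [Set.Icc.coe_zero, mul_zero, Real.sin_zero]
  simp

/-- `(t, z) ↦ a t z • 1` -/
def scal (W : Type) [CStarAlgebra W] (a : C(unitInterval × Circle, ℂ)) :
    C(unitInterval, C(Circle, W)) :=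
  ContinuousMap.curry ⟨fun p => a p • (1 : W), by fun_prop⟩

theorem scal_apply (a : C(unitInterval × Circle, ℂ)) (t : unitInterval) (z : Circle) :
    scal W a t z = a (t, z) • (1 : W) := rfl

/-- `cos (π t / 2)` -/
def a0 : C(unitInterval × Circle, ℂ) :=
  ⟨fun p => ((Real.cos (Real.pi * p.1 / 2) : ℝ) : ℂ), by fun_prop⟩

/-- `sin (π t / 2) z` -/
def a1 : C(unitInterval × Circle, ℂ) :=
  ⟨fun p => ((Real.sin (Real.pi * p.1 / 2) : ℝ) : ℂ) * (p.2 : ℂ), by fun_prop⟩

/-- both -/
def aa (i : Fin 2) : C(unitInterval × Circle, ℂ) := if i = 0 then a0 else a1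

theorem circ (z : Circle) : (z : ℂ) * conj (z : ℂ) = 1 := by
  rw [Complex.mul_conj, Complex.normSq_eq_norm_sq, Circle.norm_coe]
  simp

theorem aa_sum (p : unitInterval × Circle) :
    conj (aa 0 p) * aa 0 p + conj (aa 1 p) * aa 1 p = 1 := by
  change conj (((Real.cos (Real.pi * p.1 / 2) : ℝ) : ℂ)) *
      ((Real.cos (Real.pi * p.1 / 2) : ℝ) : ℂ) +
    conj (((Real.sin (Real.pi * p.1 / 2) : ℝ) : ℂ) * (p.2 : ℂ)) *
      (((Real.sin (Real.pi * p.1 / 2) : ℝ) : ℂ) * (p.2 : ℂ)) = 1
  rw [map_mul, Complex.conj_ofReal, Complex.conj_ofReal]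
  have h1 := circ p.2
  have h2 : ((Real.cos (Real.pi * p.1 / 2) : ℝ) : ℂ) ^ 2 +
      ((Real.sin (Real.pi * p.1 / 2) : ℝ) : ℂ) ^ 2 = 1 := by
    rw [← Complex.ofReal_pow, ← Complex.ofReal_pow, ← Complex.ofReal_add,
      Real.cos_sq_add_sin_sq, Complex.ofReal_one]
  linear_combination h2 + ((Real.sin (Real.pi * p.1 / 2) : ℝ) : ℂ) ^ 2 * h1

theorem aa_bp (i j : Fin 2) (p : unitInterval × Circle) :
    bp (pol p) i j = aa i p * conj (aa j p) := by
  obtain ⟨t, z⟩ := p
  have hc : Real.cos (Real.pi * t) = 2 * Real.cos (Real.pi * t / 2) ^ 2 - 1 := by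
    rw [← Real.cos_two_mul]
    congr 1
    ring
  have hs : Real.sin (Real.pi * t) =
      2 * Real.sin (Real.pi * t / 2) * Real.cos (Real.pi * t / 2) := by
    rw [← Real.sin_two_mul]
    congr 1
    ring
  have hcs := Real.cos_sq_add_sin_sq (Real.pi * t / 2)
  have h1 : (pol (t, z)).1.1 = Real.cos (Real.pi * t) := rfl
  have h2 : (pol (t, z)).1.2 = ((Real.sin (Real.pi * t) : ℝ) : ℂ) * (z : ℂ) := rfl
  have hz := circ z
  have e0 : aa 0 (t, z) = ((Real.cos (Real.pi * t / 2) : ℝ) : ℂ) := rfl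
  have e1 : aa 1 (t, z) = ((Real.sin (Real.pi * t / 2) : ℝ) : ℂ) * (z : ℂ) := rfl
  set c := Real.cos (Real.pi * t / 2)
  set s := Real.sin (Real.pi * t / 2)
  fin_cases i <;> fin_cases j
  · change ((1 + (pol (t, z)).1.1 : ℝ) : ℂ) / 2 = aa 0 (t, z) * conj (aa 0 (t, z))
    rw [h1, hc, e0, Complex.conj_ofReal]
    push_cast
    ring
  · change conj (pol (t, z)).1.2 / 2 = aa 0 (t, z) * conj (aa 1 (t, z))
    rw [h2, hs, e0, e1, map_mul, map_mul, Complex.conj_ofReal, Complex.conj_ofReal]
    push_cast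
    ring
  · change (pol (t, z)).1.2 / 2 = aa 1 (t, z) * conj (aa 0 (t, z))
    rw [h2, hs, e0, e1, Complex.conj_ofReal]
    push_cast
    ring
  · change ((1 - (pol (t, z)).1.1 : ℝ) : ℂ) / 2 = aa 1 (t, z) * conj (aa 1 (t, z))
    rw [h1, hc, e1, map_mul, Complex.conj_ofReal]
    have hcs' : (c : ℂ) ^ 2 + (s : ℂ) ^ 2 = 1 := by
      rw [← Complex.ofReal_pow, ← Complex.ofReal_pow, ← Complex.ofReal_add, hcs,
        Complex.ofReal_one]
    push_cast
    linear_combination (-1 : ℂ) * hcs' - (s : ℂ) ^ 2 * hz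

theorem bp_south (i j : Fin 2) : bp south i j = if i = 1 ∧ j = 1 then 1 else 0 := by
  have h1 : south.1.1 = -1 := by
    change Real.cos (Real.pi * ((1 : unitInterval) : ℝ)) = -1
    rw [Set.Icc.coe_one, mul_one, Real.cos_pi]
  have h2 : south.1.2 = 0 := by
    change ((Real.sin (Real.pi * ((1 : unitInterval) : ℝ)) : ℝ) : ℂ) * ((1 : Circle) : ℂ) = 0
    rw [Set.Icc.coe_one, mul_one, Real.sin_pi]
    simp
  fin_cases i <;> fin_cases j
  · change ((1 + south.1.1 : ℝ) : ℂ) / 2 = 0
    rw [h1]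
    norm_num
  · change conj south.1.2 / 2 = 0
    rw [h2]
    simp
  · change south.1.2 / 2 = 0
    rw [h2]
    simp
  · change ((1 - south.1.1 : ℝ) : ℂ) / 2 = 1
    rw [h1]
    norm_num

end maps

/-- the corner as a *-homomorphism -/
def hU {W K : Type} [CStarAlgebra W] [NonUnitalCStarAlgebra K] (e : ℕ → ℕ → W →ₗ[ℂ] K)
    (he : IUnits e) : W →⋆ₙₐ[ℂ] K where
  toFun w := e 0 0 w
  map_smul' c a := map_smul (e 0 0) c a
  map_zero' := map_zero (e 0 0)
  map_add' a b := map_add (e 0 0) a b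
  map_mul' a b := (he.mul 0 0 0 a b).symm
  map_star' a := (he.star 0 0 a).symm

/-- `x ↦ (k x, 0)` -/
def kP {W K M : Type} [CStarAlgebra W] [NonUnitalCStarAlgebra K] [CStarAlgebra M]
    (k : K →⋆ₙₐ[ℂ] M) : K →⋆ₙₐ[ℂ] M × C(unitInterval, C(Circle, W)) where
  toFun x := (k x, 0)
  map_smul' c a := Prod.ext (map_smul k c a) (smul_zero _).symm
  map_zero' := Prod.ext (map_zero k) rfl
  map_add' a b := Prod.ext (map_add k a b) (add_zero _).symm
  map_mul' a b := Prod.ext (map_mul k a b) (mul_zero _).symm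
  map_star' a := Prod.ext (map_star k a) (star_zero _).symm

theorem t (hKW : S_KW) (hGEN : S_GEN) (hQTK : S_QTK) (hUNV : S_UNV) (hGEX : S_GEX)
    (hCONE : S_CONE) (hSTAB : S_STAB) : S_TOE := by
  intro W _ _
  obtain ⟨K, instK, e, sepK, he⟩ := hKW W
  obtain ⟨M, instM, k, ρ, v, hk, hid, hv1, hv2, hv3, hρ⟩ := hGEN W K e he
  obtain ⟨Q, instQ, π, hπ, hker⟩ := hQTK K M k hid
  have hu1 : star (π v) * π v = 1 := by rw [← map_star, ← map_mul, hv1, map_one]
  have hu2 : π v * star (π v) = 1 := by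
    rw [← map_star, ← map_mul, hv2, map_sub, map_one, (hker _).2 ⟨_, rfl⟩, sub_zero]
  obtain ⟨τ, hτ1, hτ2⟩ := hUNV W Q (π.comp ρ) (π v) hu1 hu2 (fun w => by
    rw [StarAlgHom.comp_apply, ← map_mul, ← map_mul, hv3])
  have sepV : SeparableSpace C(Circle, W) := inferInstance
  obtain ⟨G, instG, g, sepG, hg, hrg⟩ := hGEX K M Q C(Circle, W) W k π τ (cW Circle W) hker
  have hcs0 : ∀ z : Circle, aa 0 (0, z) = 1 := fun z => by
    change ((Real.cos (Real.pi * ((0 : unitInterval) : ℝ) / 2) : ℝ) : ℂ) = 1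
    rw [Set.Icc.coe_zero, mul_zero, zero_div, Real.cos_zero, Complex.ofReal_one]
  have hcs1 : ∀ z : Circle, aa 0 (1, z) = 0 := fun z => by
    change ((Real.cos (Real.pi * ((1 : unitInterval) : ℝ) / 2) : ℝ) : ℂ) = 0
    rw [Set.Icc.coe_one, mul_one, Real.cos_pi_div_two, Complex.ofReal_zero]
  have hsn0 : ∀ z : Circle, aa 1 (0, z) = 0 := fun z => by
    change ((Real.sin (Real.pi * ((0 : unitInterval) : ℝ) / 2) : ℝ) : ℂ) * (z : ℂ) = 0
    rw [Set.Icc.coe_zero, mul_zero, zero_div, Real.sin_zero, Complex.ofReal_zero, zero_mul]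
  have hsn1 : ∀ z : Circle, aa 1 (1, z) = z := fun z => by
    change ((Real.sin (Real.pi * ((1 : unitInterval) : ℝ) / 2) : ℝ) : ℂ) * (z : ℂ) = z
    rw [Set.Icc.coe_one, mul_one, Real.sin_pi_div_two, Complex.ofReal_one, one_mul]
  -- the elements are in the range
  have hr : ∀ w, rP ρ w ∈ Set.range g := fun w => by
    rw [hrg]
    exact ⟨(hτ1 w).symm, w, rfl⟩
  have hΦ : ∀ f, PhP ρ f ∈ Set.range g := fun f => by
    rw [hrg]
    refine ⟨?_, f (pol (0, 1)), ?_⟩
    · have h1 : (PhP ρ f).2 1 = ContinuousMap.const Circle (f south) := by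
        ext z
        change f (pol (1, z)) = f south
        rw [pol_one]
      rw [h1]
      exact (hτ1 _).symm
    · ext z
      change f (pol (0, z)) = f (pol (0, 1))
      rw [pol_zero]
  have hκ : ∀ x, kP (W := W) k x ∈ Set.range g := fun x => by
    rw [hrg]
    refine ⟨?_, 0, ?_⟩
    · change π (k x) = τ 0
      rw [map_zero, hker]
      exact ⟨x, rfl⟩
    · exact (map_zero (cW Circle W)).symm
  have hx0 : ((0 : M), scal W (aa 0)) ∈ Set.range g := by
    rw [hrg]
    refine ⟨?_, 1, ?_⟩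
    · have h1 : (scal W (aa 0)) 1 = 0 := by
        ext z
        rw [scal_apply, hcs1, zero_smul]
        rfl
      change π 0 = τ ((scal W (aa 0)) 1)
      rw [h1, map_zero, map_zero]
    · ext z
      change (scal W (aa 0)) 0 z = 1
      rw [scal_apply, hcs0, one_smul]
  have hx1 : (v, scal W (aa 1)) ∈ Set.range g := by
    rw [hrg]
    refine ⟨?_, 0, ?_⟩
    · change π v = τ ((scal W (aa 1)) 1)
      rw [hτ2]
      intro z
      rw [scal_apply, hsn1]
    · ext z
      change (scal W (aa 1)) 0 z = 0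
      rw [scal_apply, hsn0, zero_smul]
  obtain ⟨x0, hx0⟩ := hx0
  obtain ⟨x1, hx1⟩ := hx1
  have hξ : ∀ i : Fin 2, g ((![x0, x1] : Fin 2 → G) i) = (if i = 1 then v else 0, scal W (aa i)) := by
    intro i
    fin_cases i
    · exact hx0
    · exact hx1
  refine ⟨G, instG, liftU g hg (rP ρ) hr, liftU g hg (PhP ρ) hΦ,
    (liftN g hg (kP k) hκ).comp (hU e he), ![x0, x1], sepG, ?_, ?_⟩
  · have hε : ∀ w, g (((liftN g hg (kP k) hκ).comp (hU e he)) w) = (k (e 0 0 w), 0) := fun w =>
      g_liftN g hg (kP k) hκ _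
    have hrr : ∀ w, g (liftU g hg (rP ρ) hr w) =
        (ρ w, ContinuousMap.const _ (ContinuousMap.const _ w)) := fun w => g_liftU g hg _ hr w
    have hv4 : ∀ w, star v * ρ w = ρ w * star v := fun w => by
      have h := congrArg star (hv3 (star w))
      rw [star_mul, star_mul, ← map_star, star_star] at h
      exact h.symm
    constructor
    · intro w
      apply hg
      rw [g_liftU, hrr]
      rfl
    · intro i w
      apply hg
      rw [map_mul, map_mul, hξ, hrr]
      refine Prod.ext ?_ ?_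
      · change (if i = 1 then v else 0) * ρ w = ρ w * (if i = 1 then v else 0)
        split_ifs
        · exact hv3 w
        · rw [zero_mul, mul_zero]
      · ext t z
        change (aa i (t, z) • (1 : W)) * w = w * (aa i (t, z) • (1 : W))
        rw [smul_mul_assoc, mul_smul_comm, one_mul, mul_one]
    · apply hg
      rw [map_add, map_mul, map_mul, map_star, map_star, hξ, hξ, map_one]
      refine Prod.ext ?_ ?_
      · change star (if (0 : Fin 2) = 1 then v else 0) * (if (0 : Fin 2) = 1 then v else 0) +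
          star (if (1 : Fin 2) = 1 then v else 0) * (if (1 : Fin 2) = 1 then v else 0) = 1
        rw [if_neg (by decide), if_pos rfl, hv1, star_zero, zero_mul, zero_add]
      · ext t z
        change star (aa 0 (t, z) • (1 : W)) * (aa 0 (t, z) • (1 : W)) +
          star (aa 1 (t, z) • (1 : W)) * (aa 1 (t, z) • (1 : W)) = 1
        rw [star_smul, star_smul, star_one, smul_mul_smul_comm, smul_mul_smul_comm, one_mul,
          ← add_smul]
        have := aa_sum (t, z)
        change star (aa 0 (t, z)) * aa 0 (t, z) + star (aa 1 (t, z)) * aa 1 (t, z) = 1 at this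
        rw [this, one_smul]
    · intro i j w f hf
      apply hg
      have hif : g (if i = 1 ∧ j = 1 then
          ((liftN g hg (kP k) hκ).comp (hU e he)) w else 0) =
          (if i = 1 ∧ j = 1 then k (e 0 0 w) else 0, 0) := by
        split_ifs
        · exact hε w
        · exact map_zero g
      rw [g_liftU, map_add, map_mul, map_mul, map_star, hξ, hξ, hrr, hif]
      refine Prod.ext ?_ ?_
      · change ρ (f south) = (if i = 1 then v else 0) * ρ w * star (if j = 1 then v else 0) +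
          (if i = 1 ∧ j = 1 then k (e 0 0 w) else 0)
        rw [hf, bp_south, map_smul]
        by_cases hi : i = 1
        · by_cases hj : j = 1
          · simp only [hi, hj, and_self, if_true]
            rw [one_smul, hv3, mul_assoc, hv2, mul_sub, mul_one, hρ, sub_add_cancel]
          · simp only [hj, and_false, if_false, star_zero, mul_zero, zero_smul, add_zero]
        · simp only [hi, false_and, if_false, zero_mul, zero_smul, add_zero]
      · ext t z
        change f (pol (t, z)) = (aa i (t, z) • (1 : W)) * w * star (aa j (t, z) • (1 : W)) + 0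
        rw [hf, aa_bp, add_zero, star_smul, star_one, smul_mul_assoc, one_mul, smul_mul_assoc,
          mul_smul_comm, mul_one, smul_smul]
        rfl
    · intro w
      apply hg
      rw [map_mul, map_star, hε, map_zero]
      have := hξ 1
      rw [this]
      refine Prod.ext ?_ ?_
      · change star (if (1 : Fin 2) = 1 then v else 0) * k (e 0 0 w) = 0
        rw [if_pos rfl, ← hρ, ← mul_assoc, hv4, mul_assoc]
        have h1 : k (e 0 0 1) = 1 - v * star v := by rw [hv2, sub_sub_cancel]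
        rw [h1, mul_sub, mul_one, ← mul_assoc (star v), hv1, one_mul, sub_self, mul_zero]
      · change star (scal W (aa 1)) * 0 = 0
        rw [mul_zero]
  · intro T i
    have h1 := hSTAB T i W K e he (hU e he) (fun _ => rfl)
    have h2 := hCONE K M Q C(Circle, W) W G k π τ (cW Circle W) ρ g hk hπ hker ?_
      (fun w => (hτ1 w).symm) hg hrg (liftN g hg (kP k) hκ) (fun x => g_liftN g hg (kP k) hκ x) T i
    · intro y
      obtain ⟨y1, rfl⟩ := h1 y
      obtain ⟨y2, rfl⟩ := h2 y1
      exact ⟨y2, T.map_comp i W K G _ _ y2⟩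
    · intro a b hab
      have := DFunLike.congr_fun hab (1 : Circle)
      exact this

end

end Pool.Agent.Helper30.CF
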